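import Pool.Agent.J6H48.OL.B

/-!
# The odd zeta values span an infinite-dimensional space over every simultaneously Liouville field

A set `V` of real numbers is approximable to the order `w` if any finitely many of its elements `x` have
simultaneous rational approximations `|q x - p| < q ^ (-w)` with arbitrarily large `q`. A subfield `F` of
`ℝ` is simultaneously Liouville if it is approximable to all orders. Examples are `ℚ`, the fields `ℚ(ξ)`
with `ξ` a Liouville number, and for every sequence `T_n → ∞` the field of all `x` which for one `A` and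
all `E` have for all large `n` rational approximations of height at most `exp (A T_n)` with an error at
most `exp (-E T_n)`.

Let `s` be large and `D + 1 ≤ log log s / 1000`.

* If `V` is approximable to the order `(D + 2) ^ 2`, then for all real numbers `v_1, …, v_D` at least
  `√(s log log s / log s) / (1000 (D + 1))` of the odd `i ≤ s` have `ζ(i) ∉ V v_1 + … + V v_D`.
* If `F` is simultaneously Liouville, every `F`-vector space `W ⊆ ℝ` of dimension at most `D` misses at
  least as many odd zeta values; so `ζ(3), ζ(5), …` up to `ζ(s)` span an `F`-vector space of dimension at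
  least `log log s / 1000 - 1`, and all odd zeta values one of infinite dimension.

The case `F = ℚ` of the second statement is the starting result `OutsideSubspaces` (problem
`MP_a89d6d_nt`). The proof replaces the coefficients of all the relations by rational numbers with one
denominator `q`, then the numbers `v_j` by rational numbers with a denominator at most `q ^ (D (D + 3))`
(Dirichlet), and uses the measure of simultaneous approximation of odd zeta values in the starting file
`SimultaneousApproximation` of this folder, whose exponent may grow with `s`.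
-/

set_option autoImplicit false

namespace Pool.Agent.Results.MP_c2395a_nt.LiouvilleSpaces

open Filter Topology

/-- The value `ζ(i)`, for `i ≥ 2`. -/
noncomputable def zetaValue (i : ℕ) : ℝ := ∑' n : ℕ, 1 / ((n : ℝ) + 1) ^ i

/-- Any finitely many elements `x` of `V` have simultaneous rational approximations
`|q x - p| < q ^ (-w)` with arbitrarily large `q`. -/
def Approximable (V : Set ℝ) (w : ℕ) : Prop :=
  ∀ s : Finset ℝ, (∀ x ∈ s, x ∈ V) → ∀ q₀ : ℕ, ∃ q : ℕ, q₀ ≤ q ∧ 1 ≤ q ∧
    ∀ x ∈ s, ∃ p : ℤ, |(q : ℝ) * x - p| < 1 / (q : ℝ) ^ w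

/-- The field `F` is simultaneously Liouville: approximable to all orders. -/
def SimLiouville (F : Subfield ℝ) : Prop := ∀ w : ℕ, Approximable (F : Set ℝ) w

/-- For one `A ≥ 0` and all `E`, for all large `n` the number `x` has a rational approximation `p / q` with
`|p|, |q| ≤ exp (A T_n)` and with an error at most `exp (- E T_n)`. -/
def WellApproximable (T : ℕ → ℝ) (x : ℝ) : Prop :=
  ∃ A : ℝ, 0 ≤ A ∧ ∀ E : ℝ, ∀ᶠ n in atTop, ∃ p q : ℤ, q ≠ 0 ∧ |(p : ℝ)| ≤ Real.exp (A * T n) ∧
    |(q : ℝ)| ≤ Real.exp (A * T n) ∧ |x - p / q| ≤ Real.exp (-(E * T n))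

/-! ### proofs -/

theorem sim_iff {F : Subfield ℝ} : SimLiouville F ↔ Q163.LE.SimLiouville F :=
  ⟨fun h s hs w q0 => h w s hs q0, fun h w s hs q0 => h s hs w q0⟩

/-- Odd zeta values over sets and fields of simultaneously well approximable numbers. -/
theorem result :
    -- examples of simultaneously Liouville fields
    (∀ ξ : ℝ, Liouville ξ → SimLiouville (Subfield.closure {ξ})) ∧
    (∀ T : ℕ → ℝ, Tendsto T atTop atTop →
      ∃ F : Subfield ℝ, SimLiouville F ∧ ∀ x : ℝ, x ∈ F ↔ WellApproximable T x) ∧
    -- the number of odd zeta values outside `V v_1 + … + V v_D` and outside `F`-vector spaces, and the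
    -- dimension over `F` of the space spanned by the odd zeta values
    (∃ s₀ : ℕ, ∀ s ≥ s₀,
      (∀ D : ℕ, (D : ℝ) + 1 ≤ (1 / 1000) * Real.log (Real.log s) →
        (∀ V : Set ℝ, Approximable V ((D + 2) ^ 2) → ∀ v : Fin D → ℝ,
          (1 / 1000) / ((D : ℝ) + 1) * Real.sqrt (s * Real.log (Real.log s) / Real.log s) ≤
            (Set.ncard {i : ℕ | 3 ≤ i ∧ i ≤ s ∧ Odd i ∧
              ¬ ∃ c : Fin D → ℝ, (∀ a, c a ∈ V) ∧ zetaValue i = ∑ a, c a * v a} : ℝ)) ∧
        (∀ F : Subfield ℝ, SimLiouville F → ∀ W : Submodule F ℝ, FiniteDimensional F W →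
          Module.finrank F W ≤ D →
          (1 / 1000) / ((D : ℝ) + 1) * Real.sqrt (s * Real.log (Real.log s) / Real.log s) ≤
            (Set.ncard {i : ℕ | 3 ≤ i ∧ i ≤ s ∧ Odd i ∧ zetaValue i ∉ W} : ℝ))) ∧
      (∀ F : Subfield ℝ, SimLiouville F →
        (1 / 1000) * Real.log (Real.log s) - 1 ≤
          (Module.finrank F (Submodule.span F (zetaValue '' {i : ℕ | 3 ≤ i ∧ i ≤ s ∧ Odd i})) : ℝ))) ∧
    (∀ F : Subfield ℝ, SimLiouville F →
      ¬ FiniteDimensional F (Submodule.span F (zetaValue '' {i : ℕ | 3 ≤ i ∧ Odd i}))) := by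
  refine ⟨fun ξ hξ => sim_iff.2 (J6H48.OL.sim_liouville hξ), fun T hT => ?_, ?_, ?_⟩
  · exact ⟨Q163.LE.ApField T hT, sim_iff.2 (Q163.LE.sim_apField T hT), fun x => Iff.rfl⟩
  · obtain ⟨s1, h1⟩ := J6H48.OL.t_comb
    obtain ⟨s2, h2⟩ := J6H48.OL.t_field
    obtain ⟨s3, h3⟩ := J6H48.OL.t_dim
    refine ⟨max s1 (max s2 s3), fun s hs => ?_⟩
    have hs1 : s1 ≤ s := (le_max_left _ _).trans hs
    have hs2 : s2 ≤ s := ((le_max_left _ _).trans (le_max_right _ _)).trans hs
    have hs3 : s3 ≤ s := ((le_max_right _ _).trans (le_max_right _ _)).trans hs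
    refine ⟨fun D hD => ⟨fun V hV v => h1 s hs1 D hD V hV v, fun F hF W hW hWD => ?_⟩, fun F hF => ?_⟩
    · exact h2 s hs2 D hD F (sim_iff.1 hF) W hW hWD
    · exact h3 s hs3 F (sim_iff.1 hF)
  · exact fun F hF => J6H48.OL.t_inf F (sim_iff.1 hF)

end Pool.Agent.Results.MP_c2395a_nt.LiouvilleSpaces
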