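import Pool.Agent.J6H74.MW.Fin

/-!
# Many irrational odd zeta values in every window of bounded ratio

There are `c > 0` and `R₀` such that for all `s ≥ 1` and `R ≥ R₀` at least
`c √(R log log R / log R)` of the odd `i`, `s < i ≤ R s`, have an irrational `ζ(i)`. The constants do
not depend on `s`; the case `s = 1` is the starting file `SqrtLogLog` of this folder. So the irrational odd
zeta values are evenly distributed on the logarithmic scale: every window of ratio `R` contains a number of
them which tends to infinity with `R`, uniformly in its left end.

Method. Hankel determinants of the functional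
`Q ↦ ∑_{d ≤ B} w_d ∑_{u > d} (1/b!) (d/dt)^b [R(t) Q(y(t))] (t = u/d)`, `b = s - 1` even,
`R(t) = (2t+n-1) / (t(t+1)...(t+n-1))^(2h)`, `y(t) = t(t+n-1)`, with weights `w_d` which eliminate fewer
than `B` zeta values. The nodes `u/d` now count with multiplicity `s`. New with respect to `SqrtLogLog`
(`b = 0`) and `WindowsRatio36` (`B = 1`): the non-vanishing of a determinant by a confluent interpolation
argument (triangular systems at the nodes, expansions in confluent bases), the archimedean bound with a
confluent Newton basis, and the `p`-adic bounds for singular nodes of multiplicity `s`, all uniform in `s`.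
-/

set_option autoImplicit false

namespace Pool.Agent.Results.MP_c2395a_nt.ManyInWindows

/-- **Many irrational odd zeta values in every window.** There are `c > 0` and `R₀` such that for all `R ≥ R₀`
and all `s ≥ 1` at least `c √(R log log R / log R)` of the odd `i` with `s < i ≤ R s` have an irrational
`ζ(i) = ∑ 1/(n+1)^i`. -/
theorem result : ∃ c : ℝ, 0 < c ∧ ∃ R0 : ℕ, ∀ R ≥ R0, ∀ s : ℕ, 1 ≤ s →
    c * Real.sqrt (R * Real.log (Real.log R) / Real.log R) ≤
      (Set.ncard {i : ℕ | s < i ∧ i ≤ R * s ∧ Odd i ∧
        Irrational (∑' n : ℕ, 1 / ((n : ℝ) + 1) ^ i)} : ℝ) :=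
  Pool.Agent.J6H74.MW.z_window

end Pool.Agent.Results.MP_c2395a_nt.ManyInWindows
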