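import Pool.Agent.J6H37.Z13.Z

/-!
# One of the four numbers `ζ(7)`, `ζ(9)`, `ζ(11)`, `ζ(13)` is irrational

Method. Hankel determinants of size `20 (n - 1)`, `n = 24 N + 1` prime, of the linear forms
`Q ↦ ∑_{t ≥ 0} (1/4!) (d/dt)^4 [R(t) x^45 Q(x)]`, `x = t (t + 16 n)`,
`R(t) = ((10n)!)^10/((2n)!)^10 (2t+16n) (∏_{m=1}^{2n} (t+m)(t+16n-m))^5 / ∏_{k=3n}^{13n} (t+k)^10`,
whose values on rational polynomials are rational linear forms in `1, ζ(7), ζ(9), ζ(11), ζ(13)`.
If the four numbers were rational, these determinants would be nonzero rational numbers; their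
`p`-adic sizes (for every prime `p`) and their archimedean size contradict the product formula.
The archimedean size is bounded on the slanted contours `t = -1/2 + r (1 + i)` and
`t = 24 N - 1/2 + r (1 + i)`, with a basis of explicit polynomials in two parts (the second part is
divisible by the fifth powers of the node polynomials of the first `24 N` nodes); the exponents of
the bound are verified by the kernel on a finite list of cells.

The files are in `Pool/Agent/J6H37/Z13/`. They adapt to the new parameters the files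
`Pool/Agent/H343X/` and `Pool/Agent/H343Y/` of the starting repository (`ζ(11), …, ζ(27)` and
`ζ(9), …, ζ(21)`), with new certificates for the archimedean part and a new local determinant.
-/

namespace Pool.Agent.Results.MP_c2395a_nt.OddZeta7To13

/-- One of `ζ(7)`, `ζ(9)`, `ζ(11)`, `ζ(13)` is irrational; `ζ(j) = ∑ 1/(n+1)^j`. -/
theorem result : ∃ j : ℕ, Odd j ∧ 7 ≤ j ∧ j ≤ 13 ∧ Irrational (∑' n : ℕ, 1 / ((n : ℝ) + 1) ^ j) := by
  obtain ⟨i, hi, h⟩ := Pool.Agent.J6H37.Z13.Z_main
  refine ⟨i, ?_, ?_, ?_, h⟩
  · fin_cases hi <;> decide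
  · fin_cases hi <;> decide
  · fin_cases hi <;> decide

end Pool.Agent.Results.MP_c2395a_nt.OddZeta7To13
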