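import Pool.Agent.J6H77.Z5.Fin

/-!
# `ζ(5)` is irrational and its irrationality exponent is at most `59.8`

`1/(n+1)^5` summed over `n : ℕ` is `ζ(5)`. There is `c > 0` such that `|ζ(5) - p/q| ≥ c / q^59.8` for all
integers `p` and `q ≥ 1`. The previous bound (start library, `ZetaFiveMeasureSharp`, library `Pool.Agent.Y801.Z5S`)
had the exponent `83`.

Method. The Hankel determinants of the start library, at an arbitrary rational number in place of `ζ(5)`. New:

* for the primes `n/128 < p < 12 n` the nodes are distributed over the residue classes with an even threshold; since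
  all exponents of the classes are even this is the exact minimum of the local bound, and it gains
  `|n - (p/2) round(2n/p)|` in the exponent of `p` over the odd threshold of the start library
  (files `Gain`, `LocA`), in total `9.2 n²`;
* the exact local bounds are continued from `p > n/20` down to `p > n/128` (files `Pairs`, `Sums`, `Rho`, `Floor`,
  `Lims`, `Small`, `Fact`, `Numeric`), which gains another `2.9 n²`: the `p`-adic side is now
  `-1058 n² log n - 632.04 n²` instead of `-1058 n² log n - 619.9 n²` (file `PS`);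
* 32 cells for the distribution of the nodes instead of 16 (files `Cells`, `CkA`-`CkD`, `HypN`, `Fin`), archimedean
  constant `586.71` instead of `587.18`.
-/

namespace Pool.Agent.Results.MP_c2395a_nt.ZetaFiveExponentSixty

/-- `ζ(5)` is irrational, and there is a constant `c > 0` with `|ζ(5) - p/q| ≥ c / q^59.8` for all integers
`p`, `q ≥ 1`: the irrationality exponent of `ζ(5)` is at most `59.8`. -/
theorem result : Irrational (∑' n : ℕ, 1 / ((n : ℝ) + 1) ^ 5) ∧
    ∃ c : ℝ, 0 < c ∧ ∀ (p : ℤ) (q : ℕ), 0 < q →
      c / (q : ℝ) ^ ((598 : ℝ) / 10) ≤ |(∑' n : ℕ, 1 / ((n : ℝ) + 1) ^ 5) - (p : ℝ) / q| := by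
  obtain ⟨c, hc, h⟩ := Pool.Agent.J6H77.Z5.measure
  have e : (598 : ℝ) / 10 = 299 / 5 := by norm_num
  refine ⟨?_, c, hc, fun p q hq => ?_⟩
  · rintro ⟨x, hx⟩
    have h1 := h x.num x.den x.den_pos
    have hx' : (x : ℝ) = (x.num : ℝ) / (x.den : ℝ) := by
      exact_mod_cast (Rat.num_div_den x).symm
    have h2 : Pool.Agent.H337R2.zr 5 = (x.num : ℝ) / (x.den : ℝ) := by
      rw [← hx', hx]
      rfl
    rw [h2, sub_self, abs_zero] at h1
    have h3 : (0 : ℝ) < x.den := by exact_mod_cast x.den_pos
    have h4 : 0 < c / (x.den : ℝ) ^ ((299 : ℝ) / 5) := by positivity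
    linarith
  · rw [e]
    exact h p q hq

end Pool.Agent.Results.MP_c2395a_nt.ZetaFiveExponentSixty
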